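import Pool.Agent.J4H43.YJ.Iso

set_option autoImplicit false

/-! # Project YJ (helper50): S_BL (helper43) -/

namespace Pool.Agent.J4H43.YJ

open MvPolynomial
open Pool.Agent.W428.MOT
open Pool.Agent.TH192.MT (ar Cg coeff_ar constr_pre)
open Pool.Agent.J4H50.YJ

section

variable {K : Type} [Field K] {σ τ : Type}

/-- the preimage of a cylinder under a regular map -/
theorem cyl_pre {N : ℕ} {A : Set (Ac K σ)} {C : Set (Ac K τ)} (hA : Cyl A N) (hC : Cyl C N)
    {φ : Ac K σ → Ac K τ}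
    (hφ : ∀ i, ∃ P Q : MvPolynomial (Option σ) K, ∀ x ∈ A, PowerSeries.coeff 0 (ev x Q) ≠ 0 ∧
      φ x i * ev x Q = ev x P) : Cyl {x | x ∈ A ∧ φ x ∈ C} N := by
  constructor
  · rintro x y hxy ⟨h1, h2⟩
    have h3 := hA.1 x y hxy h1
    exact ⟨h3, hC.1 _ _ (fun i j hj => cg_quot hφ N x y h1 h3 (fun i j hj => hxy i j hj) i j hj) h2⟩
  · have h1 := constr_pre hA.2 (reg_jm N hφ) hC.2
    have e : {z : Pt K (σ × Fin (N + 1)) | ar z ∈ {x | x ∈ A ∧ φ x ∈ C}} =
        {z | z ∈ {z : Pt K (σ × Fin (N + 1)) | ar z ∈ A} ∧ jm N φ z ∈ {z : Pt K (τ × Fin (N + 1)) | ar z ∈ C}} := by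
      ext z
      simp only [Set.mem_ofPred_eq]
      refine and_congr_right fun _ => ⟨?_, ?_⟩
      · exact hC.1 _ _ fun i j hj => (cg_jm N φ z i j hj).symm
      · exact hC.1 _ _ fun i j hj => cg_jm N φ z i j hj
    rw [e]
    exact h1

/-- all arcs -/
theorem cyl_univ (N : ℕ) : Cyl (Set.univ : Set (Ac K σ)) N :=
  ⟨fun _ _ _ _ => Set.mem_univ _, Constr.univ⟩

/-- the arcs with `x i (0) ≠ 0` -/
theorem cyl_unit (N : ℕ) (i : σ) : Cyl {x : Ac K σ | PowerSeries.coeff 0 (x i) ≠ 0} N := by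
  constructor
  · intro x y hxy hx
    show PowerSeries.coeff 0 (y i) ≠ 0
    rw [← hxy i 0 (Nat.zero_le _)]
    exact hx
  · have e : {z : Pt K (σ × Fin (N + 1)) | ar z ∈ {x : Ac K σ | PowerSeries.coeff 0 (x i) ≠ 0}} =
        {z | z (i, 0) ≠ 0} := by
      ext z
      simp only [Set.mem_ofPred_eq, Pool.Agent.TH192.MT.coeff_ar_zero]
    rw [e]
    exact Constr.ne (IsPF.coord _) IsPF.zero

end

/-- the arcs `(u, y)` with `(t ^ i u, y) ∈ B` -/
def CB {K : Type} [Field K] (B : Set (Ac K (Fin 2))) (i : ℕ) : Set (Ac K (Fin 2)) :=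
  {x | x ∈ (Set.univ : Set (Ac K (Fin 2))) ∧ (![PowerSeries.X ^ i * x 0, x 1] : Ac K (Fin 2)) ∈ B}

/-- the arcs `(u, w)` with `(u, u⁻¹ w)` in `C` -/
noncomputable def DB {K : Type} [Field K] (C : Set (Ac K (Fin 2))) : Set (Ac K (Fin 2)) :=
  {x | x ∈ {x : Ac K (Fin 2) | PowerSeries.coeff 0 (x 0) ≠ 0} ∧
    (![x 0, (x 0)⁻¹ * x 1] : Ac K (Fin 2)) ∈ C}

theorem bl (hSC : S_SC) (hISO : S_ISO) : S_BL := by
  intro K _ R _ M v hv B i hB hO
  obtain ⟨N, hN⟩ := hB
  have evX : ∀ (x : Ac K (Fin 2)) (j : Fin 2), ev x (X (some j)) = x j := by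
    intro x j
    simp only [ev, aeval_X, Option.elim]
  have evT : ∀ (x : Ac K (Fin 2)), ev x (X none) = PowerSeries.X := by
    intro x
    simp only [ev, aeval_X, Option.elim]
  have ev1 : ∀ (x : Ac K (Fin 2)), ev x (1 : MvPolynomial (Option (Fin 2)) K) = 1 := by
    intro x
    simp only [ev, map_one]
  have evM : ∀ (x : Ac K (Fin 2)) (p q : MvPolynomial (Option (Fin 2)) K), ev x (p * q) = ev x p * ev x q := by
    intro x p q
    simp only [ev, map_mul]
  have evP : ∀ (x : Ac K (Fin 2)) (p : MvPolynomial (Option (Fin 2)) K) (n : ℕ), ev x (p ^ n) = ev x p ^ n := by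
    intro x p n
    simp only [ev, map_pow]
  have c1 : ∀ (x : Ac K (Fin 2)), PowerSeries.coeff 0 (ev x (1 : MvPolynomial (Option (Fin 2)) K)) ≠ 0 := by
    intro x
    rw [ev1, PowerSeries.coeff_one, if_pos rfl]
    exact one_ne_zero
  -- the cylinder `C`
  have hC : Cyl (CB B i) N := by
    refine cyl_pre (cyl_univ N) hN (φ := fun x => ![PowerSeries.X ^ i * x 0, x 1]) ?_
    intro j
    fin_cases j
    · refine ⟨X none ^ i * X (some 0), 1, fun x _ => ⟨c1 x, ?_⟩⟩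
      rw [ev1, evM, evP, evT, evX, mul_one]
      rfl
    · refine ⟨X (some 1), 1, fun x _ => ⟨c1 x, ?_⟩⟩
      rw [ev1, evX, mul_one]
      rfl
  have hC0 : ∀ x ∈ CB B i, PowerSeries.coeff 0 (x 0) ≠ 0 := by
    rintro x ⟨-, hx⟩
    have h1 := (hO _ hx).2
    have h2 : (![PowerSeries.X ^ i * x 0, x 1] : Ac K (Fin 2)) 0 = PowerSeries.X ^ i * x 0 := rfl
    rw [h2] at h1
    have h3 := PowerSeries.coeff_X_pow_mul (x 0) i 0
    rw [Nat.zero_add] at h3
    rwa [h3] at h1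
  -- the cylinder `D`
  have hψ : ∀ j : Fin 2, ∃ P Q : MvPolynomial (Option (Fin 2)) K,
      ∀ x ∈ {x : Ac K (Fin 2) | PowerSeries.coeff 0 (x 0) ≠ 0}, PowerSeries.coeff 0 (ev x Q) ≠ 0 ∧
      (![x 0, (x 0)⁻¹ * x 1] : Ac K (Fin 2)) j * ev x Q = ev x P := by
    intro j
    fin_cases j
    · refine ⟨X (some 0), 1, fun x _ => ⟨c1 x, ?_⟩⟩
      rw [ev1, evX, mul_one]
      rfl
    · refine ⟨X (some 1), X (some 0), fun x hx => ⟨by rw [evX]; exact hx, ?_⟩⟩
      rw [evX, evX]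
      show (x 0)⁻¹ * x 1 * x 0 = x 1
      rw [mul_comm, ← mul_assoc, PowerSeries.mul_inv_cancel, one_mul]
      rw [← PowerSeries.coeff_zero_eq_constantCoeff_apply]
      exact hx
  have hD : Cyl (DB (CB B i)) N := cyl_pre (cyl_unit N 0) hC hψ
  have hinv : ∀ x : Ac K (Fin 2), PowerSeries.coeff 0 (x 0) ≠ 0 → x 0 * (x 0)⁻¹ = 1 := by
    intro x hx
    apply PowerSeries.mul_inv_cancel
    rw [← PowerSeries.coeff_zero_eq_constantCoeff_apply]
    exact hx
  have hvol : vol M v (CB B i) = vol M v (DB (CB B i)) := by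
    refine hISO M v hv rfl (CB B i) (DB (CB B i)) ⟨N, hC⟩ ⟨N, hD⟩ (fun x => ![x 0, x 0 * x 1])
      (fun x => ![x 0, (x 0)⁻¹ * x 1]) ?_ ?_ ?_ ?_
    · intro x hx
      have h0 := hC0 x hx
      have h1 : (![x 0, (x 0)⁻¹ * (x 0 * x 1)] : Ac K (Fin 2)) = x := by
        funext j
        fin_cases j
        · rfl
        · show (x 0)⁻¹ * (x 0 * x 1) = x 1
          rw [← mul_assoc, mul_comm (x 0)⁻¹, hinv x h0, one_mul]
      refine ⟨⟨h0, ?_⟩, h1⟩
      show (![x 0, (x 0)⁻¹ * (x 0 * x 1)] : Ac K (Fin 2)) ∈ CB B i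
      rw [h1]
      exact hx
    · rintro x ⟨h0, hx⟩
      refine ⟨hx, ?_⟩
      funext j
      fin_cases j
      · rfl
      · show x 0 * ((x 0)⁻¹ * x 1) = x 1
        rw [← mul_assoc, hinv x h0, one_mul]
    · intro j
      fin_cases j
      · refine ⟨X (some 0), 1, fun x _ => ⟨c1 x, ?_⟩⟩
        rw [ev1, evX, mul_one]
        rfl
      · refine ⟨X (some 0) * X (some 1), 1, fun x _ => ⟨c1 x, ?_⟩⟩
        rw [ev1, evM, evX, evX, mul_one]
        rfl
    · intro j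
      obtain ⟨P, Q, hPQ⟩ := hψ j
      exact ⟨P, Q, fun y hy => hPQ y hy.1⟩
  have e1 : {x : Ac K (Fin 2) | ∃ y ∈ CB B i, ∀ j, x j = PowerSeries.X ^ (![i, 0] : Fin 2 → ℕ) j * y j} = B := by
    ext x
    constructor
    · rintro ⟨y, ⟨-, hy⟩, hxy⟩
      have h1 : x = ![PowerSeries.X ^ i * y 0, y 1] := by
        funext j
        rw [hxy j]
        fin_cases j
        · rfl
        · show PowerSeries.X ^ 0 * y 1 = y 1
          rw [pow_zero, one_mul]
      rw [h1]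
      exact hy
    · intro hx
      obtain ⟨u, hu⟩ := PowerSeries.X_pow_dvd_iff.2 (hO x hx).1
      refine ⟨![u, x 1], ⟨Set.mem_univ _, ?_⟩, ?_⟩
      · have h1 : (![PowerSeries.X ^ i * (![u, x 1] : Ac K (Fin 2)) 0, (![u, x 1] : Ac K (Fin 2)) 1] :
            Ac K (Fin 2)) = x := by
          funext j
          fin_cases j
          · exact hu.symm
          · rfl
        rw [h1]
        exact hx
      · intro j
        fin_cases j
        · exact hu
        · show x 1 = PowerSeries.X ^ 0 * x 1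
          rw [pow_zero, one_mul]
  have e2 : {x : Ac K (Fin 2) | ∃ y ∈ DB (CB B i), ∀ j, x j = PowerSeries.X ^ (fun _ : Fin 2 => i) j * y j} =
      {x : Ac K (Fin 2) | ∃ y ∈ B, x 0 = y 0 ∧ x 1 = y 0 * y 1} := by
    ext x
    constructor
    · rintro ⟨y, ⟨h0, -, hy⟩, hxy⟩
      refine ⟨_, hy, hxy 0, ?_⟩
      show x 1 = PowerSeries.X ^ i * y 0 * ((y 0)⁻¹ * y 1)
      rw [hxy 1, mul_assoc, ← mul_assoc (y 0), hinv y h0, one_mul]
    · rintro ⟨y, hy, h0, h1⟩
      obtain ⟨u, hu⟩ := PowerSeries.X_pow_dvd_iff.2 (hO y hy).1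
      have hm : (![u, y 1] : Ac K (Fin 2)) ∈ CB B i := by
        refine ⟨Set.mem_univ _, ?_⟩
        have h2 : (![PowerSeries.X ^ i * (![u, y 1] : Ac K (Fin 2)) 0, (![u, y 1] : Ac K (Fin 2)) 1] :
            Ac K (Fin 2)) = y := by
          funext j
          fin_cases j
          · exact hu.symm
          · rfl
        rw [h2]
        exact hy
      have hu0 : PowerSeries.coeff 0 u ≠ 0 := hC0 _ hm
      refine ⟨![u, u * y 1], ⟨hu0, ?_⟩, ?_⟩
      · have h3 : (![(![u, u * y 1] : Ac K (Fin 2)) 0, ((![u, u * y 1] : Ac K (Fin 2)) 0)⁻¹ *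
            (![u, u * y 1] : Ac K (Fin 2)) 1] : Ac K (Fin 2)) = ![u, y 1] := by
          funext j
          fin_cases j
          · rfl
          · show u⁻¹ * (u * y 1) = y 1
            rw [← mul_assoc, mul_comm u⁻¹, PowerSeries.mul_inv_cancel, one_mul]
            rw [← PowerSeries.coeff_zero_eq_constantCoeff_apply]
            exact hu0
        rw [h3]
        exact hm
      · intro j
        fin_cases j
        · show x 0 = PowerSeries.X ^ i * u
          rw [h0, hu]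
        · show x 1 = PowerSeries.X ^ i * (u * y 1)
          rw [h1, hu, mul_assoc]
  have h1 := hSC M v hv (![i, 0] : Fin 2 → ℕ) (CB B i) ⟨N, hC⟩
  have h2 := hSC M v hv (fun _ : Fin 2 => i) (DB (CB B i)) ⟨N, hD⟩
  rw [e1] at h1
  rw [e2] at h2
  refine ⟨h2.1, ?_⟩
  rw [h2.2, h1.2, hvol]
  simp only [Fin.sum_univ_two, Matrix.cons_val_zero, Matrix.cons_val_one]
  ring

theorem t_BL (h : Bas) : S_BL := bl h.sc h.iso

end Pool.Agent.J4H43.YJ
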