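import Pool.Agent.J4H50.YJ.Stm

set_option autoImplicit false

/-! # Project YJ (helper50): S_ISO (helper43) -/

namespace Pool.Agent.J4H43.YJ

open MvPolynomial
open Pool.Agent.W428.MOT
open Pool.Agent.TH192.MT (ar Cg coeff_ar IsRA ra_add ra_mul ra_inv)
open Pool.Agent.J4H50.YJ

section

variable {K : Type} [Field K] {σ τ : Type}

theorem cg_mul {F : Type} [Field F] {q : ℕ} {a b c d : PowerSeries F} (h1 : Cg q a b) (h2 : Cg q c d) :
    Cg q (a * c) (b * d) := by
  intro k hk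
  simp only [PowerSeries.coeff_mul]
  refine Finset.sum_congr rfl fun ab hab => ?_
  have := Finset.HasAntidiagonal.mem_antidiagonal.1 hab
  rw [h1 ab.1 (by omega), h2 ab.2 (by omega)]

/-- congruent arcs have congruent values -/
theorem cg_ev (f : MvPolynomial (Option σ) K) (q : ℕ) (x y : Ac K σ) (h : ∀ i, Cg q (x i) (y i)) :
    Cg q (ev x f) (ev y f) := by
  induction f using MvPolynomial.induction_on with
  | C a =>
    intro k _
    simp only [ev, algHom_C]
  | add p r hp hr =>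
    intro k hk
    have h1 := hp k hk
    have h2 := hr k hk
    simp only [ev] at h1 h2 ⊢
    rw [map_add, map_add, map_add, map_add, h1, h2]
  | mul_X p o hp =>
    have e : ∀ x : Ac K σ, ev x (p * X o) = ev x p * o.elim PowerSeries.X x := by
      intro x
      simp only [ev, map_mul, aeval_X]
    rw [e, e]
    refine cg_mul hp ?_
    cases o with
    | none => exact fun _ _ => rfl
    | some i => exact h i

/-- cancellation of a unit -/
theorem cg_div {F : Type} [Field F] {q : ℕ} {a b u w : PowerSeries F} (hu : PowerSeries.coeff 0 u ≠ 0)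
    (hw : Cg q u w) (h : Cg q (a * u) (b * w)) : Cg q a b := by
  have hw0 : PowerSeries.coeff 0 w ≠ 0 := by
    rw [← hw 0 (Nat.zero_le _)]
    exact hu
  have hu1 : PowerSeries.constantCoeff u ≠ 0 := by
    rwa [← PowerSeries.coeff_zero_eq_constantCoeff_apply]
  have h1 : Cg q (a * u) (b * u) := by
    intro k hk
    rw [h k hk]
    exact (cg_mul (fun k _ => rfl) hw k hk).symm
  have h2 := cg_mul h1 (fun k _ => rfl : Cg q (u⁻¹) (u⁻¹))
  rwa [mul_assoc, mul_assoc, PowerSeries.mul_inv_cancel u hu1, mul_one, mul_one] at h2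

/-- the values of a polynomial on the arcs of polynomials -/
theorem ra_ev {N : ℕ} (S : Set (Pt K (σ × Fin (N + 1)))) (f : MvPolynomial (Option σ) K) :
    IsRA S (fun z => ev (K := K) (ar z) f) := by
  induction f using MvPolynomial.induction_on with
  | C a =>
    intro j
    simp only [ev, algHom_C, PowerSeries.algebraMap_apply, PowerSeries.coeff_C]
    split_ifs
    · exact (IsPF.const a).isRF S
    · exact IsPF.zero.isRF S
  | add p r hp hr =>
    have e : (fun z : Pt K (σ × Fin (N + 1)) => ev (K := K) (ar z) (p + r)) =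
        fun z => ev (K := K) (ar z) p + ev (K := K) (ar z) r := by
      funext z
      simp only [ev, map_add]
    rw [e]
    exact ra_add hp hr
  | mul_X p o hp =>
    have e : (fun z : Pt K (σ × Fin (N + 1)) => ev (K := K) (ar z) (p * X o)) =
        fun z => ev (K := K) (ar z) p * o.elim PowerSeries.X (ar z) := by
      funext z
      simp only [ev, map_mul, aeval_X]
    rw [e]
    refine ra_mul hp ?_
    cases o with
    | none =>
      intro j
      simp only [Option.elim, PowerSeries.coeff_X]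
      split_ifs
      · exact IsPF.one.isRF S
      · exact IsPF.zero.isRF S
    | some i =>
      intro j
      simp only [Option.elim, coeff_ar]
      split_ifs
      · exact (IsPF.coord _).isRF S
      · exact IsPF.zero.isRF S

/-- higher levels -/
theorem cyl_mono {A : Set (Ac K σ)} {N N' : ℕ} (h : Cyl A N) (hN : N ≤ N') : Cyl A N' := by
  refine ⟨fun x y hxy => h.1 x y fun i j hj => hxy i j (hj.trans hN), ?_⟩
  have h1 := h.2.preimage (fun z : Pt K (σ × Fin (N' + 1)) =>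
    fun p : σ × Fin (N + 1) => z (p.1, Fin.castLE (Nat.succ_le_succ hN) p.2)) fun i => IsPF.coord _
  have e : {z : Pt K (σ × Fin (N' + 1)) | ar z ∈ A} = {z : Pt K (σ × Fin (N' + 1)) |
      (fun p : σ × Fin (N + 1) => z (p.1, Fin.castLE (Nat.succ_le_succ hN) p.2)) ∈
        {z : Pt K (σ × Fin (N + 1)) | ar z ∈ A}} := by
    ext z
    have h2 : ∀ i, ∀ j ≤ N, PowerSeries.coeff j (ar z i) = PowerSeries.coeff j
        (ar (fun p : σ × Fin (N + 1) => z (p.1, Fin.castLE (Nat.succ_le_succ hN) p.2)) i) := by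
      intro i j hj
      rw [coeff_ar, coeff_ar, dif_pos (by omega), dif_pos (by omega)]
      rfl
    constructor
    · exact h.1 _ _ h2
    · exact h.1 _ _ fun i j hj => (h2 i j hj).symm
  rw [e]
  exact h1

/-- maps given by quotients preserve congruences -/
theorem cg_quot {A : Set (Ac K σ)} {φ : Ac K σ → Ac K τ}
    (hφ : ∀ i, ∃ P Q : MvPolynomial (Option σ) K, ∀ x ∈ A, PowerSeries.coeff 0 (ev x Q) ≠ 0 ∧
      φ x i * ev x Q = ev x P) (q : ℕ) (x y : Ac K σ) (hx : x ∈ A) (hy : y ∈ A)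
    (h : ∀ i, Cg q (x i) (y i)) (i : τ) : Cg q (φ x i) (φ y i) := by
  obtain ⟨P, Q, hPQ⟩ := hφ i
  refine cg_div (hPQ x hx).1 (cg_ev Q q x y h) ?_
  rw [(hPQ x hx).2, (hPQ y hy).2]
  exact cg_ev P q x y h

/-- the induced map on the jets -/
noncomputable def jm (N : ℕ) (φ : Ac K σ → Ac K τ) (z : Pt K (σ × Fin (N + 1))) :
    Pt K (τ × Fin (N + 1)) := fun p => PowerSeries.coeff (p.2 : ℕ) (φ (ar z) p.1)

theorem cg_jm (N : ℕ) (φ : Ac K σ → Ac K τ) (z : Pt K (σ × Fin (N + 1))) (i : τ) :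
    Cg N (ar (jm N φ z) i) (φ (ar z) i) := by
  intro k hk
  rw [coeff_ar, dif_pos (by omega)]
  rfl

theorem reg_jm (N : ℕ) {A : Set (Ac K σ)} {φ : Ac K σ → Ac K τ}
    (hφ : ∀ i, ∃ P Q : MvPolynomial (Option σ) K, ∀ x ∈ A, PowerSeries.coeff 0 (ev x Q) ≠ 0 ∧
      φ x i * ev x Q = ev x P) : RegularOn {z : Pt K (σ × Fin (N + 1)) | ar z ∈ A} (jm N φ) := by
  intro p
  obtain ⟨P, Q, hPQ⟩ := hφ p.1
  have h1 : IsRA {z : Pt K (σ × Fin (N + 1)) | ar z ∈ A}
      (fun z => ev (K := K) (ar z) P * (ev (K := K) (ar z) Q)⁻¹) :=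
    ra_mul (ra_ev _ P) (ra_inv (ra_ev _ Q) fun z hz => (hPQ _ hz).1)
  refine (h1 (p.2 : ℕ)).congr fun z hz => ?_
  have h2 := hPQ _ hz
  have h3 : PowerSeries.constantCoeff (ev (K := K) (ar z) Q) ≠ 0 := by
    rw [← PowerSeries.coeff_zero_eq_constantCoeff_apply]
    exact h2.1
  show PowerSeries.coeff (p.2 : ℕ) (φ (ar z) p.1) =
    PowerSeries.coeff (p.2 : ℕ) (ev (K := K) (ar z) P * (ev (K := K) (ar z) Q)⁻¹)
  rw [← h2.2, mul_assoc, PowerSeries.mul_inv_cancel _ h3, mul_one]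

theorem maps_jm (N : ℕ) {A : Set (Ac K σ)} {B : Set (Ac K τ)} (hB : Cyl B N) {φ : Ac K σ → Ac K τ}
    (h : ∀ x ∈ A, φ x ∈ B) (z : Pt K (σ × Fin (N + 1))) (hz : ar z ∈ A) : ar (jm N φ z) ∈ B :=
  hB.1 _ _ (fun i j hj => (cg_jm N φ z i j hj).symm) (h _ hz)

theorem inv_jm (N : ℕ) {A : Set (Ac K σ)} {B : Set (Ac K τ)} (hB : Cyl B N) {φ : Ac K σ → Ac K τ}
    {ψ : Ac K τ → Ac K σ} (h : ∀ x ∈ A, φ x ∈ B ∧ ψ (φ x) = x)
    (hψ : ∀ i, ∃ P Q : MvPolynomial (Option τ) K, ∀ y ∈ B, PowerSeries.coeff 0 (ev y Q) ≠ 0 ∧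
      ψ y i * ev y Q = ev y P) (z : Pt K (σ × Fin (N + 1))) (hz : ar z ∈ A) :
    jm N ψ (jm N φ z) = z := by
  funext p
  have h1 := cg_quot hψ N (ar (jm N φ z)) (φ (ar z)) (maps_jm N hB (fun x hx => (h x hx).1) z hz)
    (h _ hz).1 (cg_jm N φ z) p.1 (p.2 : ℕ) (Nat.lt_succ_iff.1 p.2.2)
  show PowerSeries.coeff (p.2 : ℕ) (ψ (ar (jm N φ z)) p.1) = _
  rw [h1, (h _ hz).2, coeff_ar, dif_pos p.2.2]

end

theorem t_ISO (hV0 : S_V0) : S_ISO := by
  intro K _ R _ M v hv σ τ _ _ hc A B hA hB φ ψ hφ hψ hφr hψr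
  obtain ⟨N1, h1⟩ := hA
  obtain ⟨N2, h2⟩ := hB
  have hA' : Cyl A (max N1 N2) := cyl_mono h1 (le_max_left _ _)
  have hB' : Cyl B (max N1 N2) := cyl_mono h2 (le_max_right _ _)
  rw [hV0 M v hv A _ hA', hV0 M v hv B _ hB', hc]
  congr 1
  exact M.iso _ _ hA'.2 hB'.2 (jm _ φ) (jm _ ψ) (reg_jm _ hφr) (reg_jm _ hψr)
    (fun z hz => maps_jm _ hB' (fun x hx => (hφ x hx).1) z hz)
    (fun z hz => maps_jm _ hA' (fun x hx => (hψ x hx).1) z hz)
    (fun z hz => inv_jm _ hB' hφ hψr z hz) (fun z hz => inv_jm _ hA' hψ hφr z hz)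

end Pool.Agent.J4H43.YJ
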